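import Mathlib

/-!
# Stationary Markov chains, i.i.d. processes and finitary factors
-/

set_option autoImplicit false

open MeasureTheory ProbabilityTheory Filter Topology
open scoped ENNReal

noncomputable section

namespace Pool.Agent.V11331.MC

/-- A transition matrix `Q` together with a stationary distribution `π`. -/
structure Chain (S : Type) where
  /-- transition probabilities -/
  Q : S → S → ℝ
  /-- initial distribution -/
  π : S → ℝ
  Q_nonneg : ∀ i j, 0 ≤ Q i j
  Q_sum : ∀ i, HasSum (Q i) 1
  π_nonneg : ∀ i, 0 ≤ π i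
  π_sum : HasSum π 1
  stationary : ∀ j, HasSum (fun i => π i * Q i j) (π j)

variable {S : Type}

open Classical in
/-- The `n`-step transition probabilities. -/
def Chain.step (M : Chain S) : ℕ → S → S → ℝ
  | 0, i, j => if i = j then 1 else 0
  | n + 1, i, j => ∑' k, M.Q i k * M.step n k j

/-- Every state can be reached from every state. -/
def Chain.Irreducible (M : Chain S) : Prop := ∀ i j, ∃ n, 0 < M.step n i j

/-- For every state the only common divisor of the possible return times is `1`. -/
def Chain.Aperiodic (M : Chain S) : Prop :=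
  ∀ i, ∀ d : ℕ, (∀ n, 1 ≤ n → 0 < M.step n i i → d ∣ n) → d = 1

open Classical in
/-- `M.surv s n i` is the probability that the chain started at `i` is not at `s` at any of the
times `1, …, n`; so `M.surv s n s` is `P (τ_s > n)` for the return time `τ_s` of `s`. -/
def Chain.surv (M : Chain S) (s : S) : ℕ → S → ℝ
  | 0, _ => 1
  | n + 1, i => ∑' j, if j = s then 0 else M.Q i j * M.surv s n j

/-- Some state has a return time with exponential tail. -/
def Chain.ExpReturn (M : Chain S) : Prop :=
  ∃ s, ∃ C c : ℝ, 0 < c ∧ ∀ n : ℕ, M.surv s n s ≤ C * Real.exp (-c * n)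

/-- The probability of the word `w` of length `n + 1`. -/
def Chain.wordProb (M : Chain S) (n : ℕ) (w : Fin (n + 1) → S) : ℝ :=
  M.π (w 0) * ∏ i : Fin n, M.Q (w i.castSucc) (w i.succ)

/-- The entropy of the chain, a process with finitely many states, is `h`: the Shannon entropies of
its words of length `n + 1`, divided by `n + 1`, tend to `h`. -/
def Chain.HasEntropy [Fintype S] (M : Chain S) (h : ℝ) : Prop :=
  Tendsto (fun n : ℕ => (∑ w : Fin (n + 1) → S, Real.negMulLog (M.wordProb n w)) / (n + 1 : ℝ))
    atTop (𝓝 h)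

section Iid

variable {T : Type} [MeasurableSpace T]

open Classical in
/-- The Shannon entropy of a probability measure: `∑ -ν{t} log ν{t}` if `ν` is carried by a countable
set, and `∞` otherwise. -/
def shannon (ν : Measure T) : ℝ≥0∞ :=
  if ∃ C : Set T, C.Countable ∧ ν Cᶜ = 0 then
    ∑' t, ENNReal.ofReal (Real.negMulLog (ν.real {t})) else ∞

/-- The law of a bi-infinite i.i.d. sequence. -/
def iid (ν : Measure T) [IsProbabilityMeasure ν] : Measure (ℤ → T) :=
  Measure.infinitePi fun _ => ν

/-- The shift: `(shift m y) k = y (k + m)`. -/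
def shift {A : Type} (m : ℤ) (y : ℤ → A) : ℤ → A := fun k => y (k + m)

variable [MeasurableSpace S]

/-- `Φ` is a factor map from the i.i.d. process with marginal `ν` onto the stationary Markov chain
`M`: it is measurable, commutes with the shift almost everywhere, and the finite-dimensional
distributions of the image are those of `M`. -/
structure IsFactorOnto (ν : Measure T) [IsProbabilityMeasure ν] (Φ : (ℤ → T) → (ℤ → S))
    (M : Chain S) : Prop where
  meas : Measurable Φ
  equivar : ∀ᵐ y ∂(iid ν), Φ (shift 1 y) = shift 1 (Φ y)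
  law : ∀ (a : ℤ) (n : ℕ) (w : Fin (n + 1) → S),
    iid ν {y | ∀ i : Fin (n + 1), Φ y (a + i) = w i} = ENNReal.ofReal (M.wordProb n w)

omit [MeasurableSpace T] [MeasurableSpace S] in
/-- The coding window of `Φ` at `y`, relative to a domain `D`: the least `r` such that
`Φ y' 0 = Φ y 0` for every `y' ∈ D` which agrees with `y` on `[-r, r]` (`∞` if there is none). -/
def window (Φ : (ℤ → T) → (ℤ → S)) (D : Set (ℤ → T)) (y : ℤ → T) : ℕ∞ :=
  ⨅ (r : ℕ) (_ : ∀ y' ∈ D, (∀ k : ℤ, |k| ≤ r → y' k = y k) → Φ y' 0 = Φ y 0), (r : ℕ∞)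

omit [MeasurableSpace S] in
/-- `Φ` is finitary with exponentially tailed coding window: for some domain `D` of full measure the
coding window `R` satisfies `P (R > r) ≤ C exp (-c r)` for all `r`. -/
def ExpWindow (ν : Measure T) [IsProbabilityMeasure ν] (Φ : (ℤ → T) → (ℤ → S)) : Prop :=
  ∃ D : Set (ℤ → T), iid ν Dᶜ = 0 ∧ ∃ C c : ℝ, 0 < c ∧
    ∀ r : ℕ, iid ν {y | (r : ℕ∞) < window Φ D y} ≤ ENNReal.ofReal (C * Real.exp (-c * r))

end Iid

end Pool.Agent.V11331.MC

end
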