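import Pool.Agent.V11331.MC.Walk

set_option autoImplicit false

open MeasureTheory ProbabilityTheory Filter Topology Set
open scoped ENNReal

noncomputable section

namespace Pool.Agent.V11331.MC

variable {T : Type} [MeasurableSpace T] [MeasurableSingletonClass T]
variable (ν : Measure T) [IsProbabilityMeasure ν]

omit [IsProbabilityMeasure ν] [MeasurableSingletonClass T] in
theorem exists_carrier (h : shannon ν = ENNReal.ofReal (Real.log lam)) :
    ∃ C : Set T, C.Countable ∧ ν Cᶜ = 0 := by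
  by_contra hne
  unfold shannon at h
  rw [if_neg hne] at h
  exact ENNReal.ofReal_ne_top h.symm

theorem inf_meas {C : Set T} (hC : C.Countable) (hC0 : ν Cᶜ = 0) : Measurable (inf ν) := by
  unfold inf
  exact (Real.measurable_log.comp (p_meas ν hC hC0)).neg

theorem inf_int {C : Set T} (hC : C.Countable) (hC0 : ν Cᶜ = 0)
    (h : shannon ν = ENNReal.ofReal (Real.log lam)) :
    Integrable (inf ν) ν ∧ ∫ t, inf ν t ∂ν = Real.log lam := by
  have hm := inf_meas ν hC hC0
  have hl := lint_inf ν hC hC0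
  have h0 : 0 ≤ᵐ[ν] inf ν := Eventually.of_forall (inf_nonneg ν)
  have hi : Integrable (inf ν) ν := by
    rw [← lintegral_ofReal_ne_top_iff_integrable hm.aestronglyMeasurable h0, hl, h]
    exact ENNReal.ofReal_ne_top
  refine ⟨hi, ?_⟩
  rw [integral_eq_lintegral_of_nonneg_ae h0 hm.aestronglyMeasurable, hl, h,
    ENNReal.toReal_ofReal (Real.log_nonneg lam_gt.le)]

theorem cX_int {C : Set T} (hC : C.Countable) (hC0 : ν Cᶜ = 0)
    (h : shannon ν = ENNReal.ofReal (Real.log lam)) :
    Measurable (cX ν) ∧ Integrable (cX ν) ν ∧ ∫ t, cX ν t ∂ν = 0 := by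
  obtain ⟨h1, h2⟩ := inf_int ν hC hC0 h
  refine ⟨(inf_meas ν hC hC0).sub_const _, h1.sub (integrable_const _), ?_⟩
  unfold cX
  rw [integral_sub h1 (integrable_const _), h2]
  simp

theorem SN_int {C : Set T} (hC : C.Countable) (hC0 : ν Cᶜ = 0)
    (h : shannon ν = ENNReal.ofReal (Real.log lam)) (N : ℕ) :
    Measurable (SN ν N) ∧ Integrable (SN ν N) (iid ν) ∧ ∫ y, SN ν N y ∂(iid ν) = 0 := by
  obtain ⟨hm, hi, h0⟩ := cX_int ν hC hC0 h
  have hk : ∀ k : ℤ, Integrable (fun y : ℤ → T => cX ν (y k)) (iid ν) := fun k =>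
    (measurePreserving_eval_infinitePi (fun _ : ℤ => ν) k).integrable_comp_of_integrable hi
  have hk0 : ∀ k : ℤ, ∫ y : ℤ → T, cX ν (y k) ∂(iid ν) = 0 := by
    intro k
    have h1 := (measurePreserving_eval_infinitePi (fun _ : ℤ => ν) k)
    have h2 := integral_map (μ := iid ν) h1.measurable.aemeasurable
      (f := cX ν) hm.aestronglyMeasurable
    have h3 : (iid ν).map (Function.eval k) = ν := h1.map_eq
    rw [h3, h0] at h2
    exact h2.symm
  refine ⟨?_, ?_, ?_⟩
  · exact Finset.measurable_fun_sum _ fun k _ => hm.comp (measurable_pi_apply _)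
  · exact integrable_finsetSum _ fun k _ => hk _
  · unfold SN
    rw [integral_finsetSum _ fun k _ => hk _]
    exact Finset.sum_eq_zero fun k _ => hk0 _

/-- the mean absolute value of the information walk is bounded -/
theorem abs_bd {Φ : (ℤ → T) → (ℤ → Bool)} (hΦ : IsFactorOnto ν Φ gold)
    (hw : ExpWindow ν Φ) (h : shannon ν = ENNReal.ofReal (Real.log lam)) :
    ∃ K : ℝ, 0 ≤ K ∧ ∀ N, ∫ y, |SN ν N y| ∂(iid ν) ≤ K := by
  obtain ⟨C, hC, hC0⟩ := exists_carrier ν h
  obtain ⟨K, hK, hKN⟩ := neg_part_bd ν hΦ hw hC hC0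
  refine ⟨2 * K.toReal, by positivity, fun N => ?_⟩
  obtain ⟨hm, hi, h0⟩ := SN_int ν hC hC0 h N
  have h1 : ∀ y, |SN ν N y| = SN ν N y + 2 * max (-SN ν N y) 0 := by
    intro y
    rcases le_total 0 (SN ν N y) with h2 | h2
    · rw [abs_of_nonneg h2, max_eq_right (by linarith)]
      ring
    · rw [abs_of_nonpos h2, max_eq_left (by linarith)]
      ring
  have hmi : Integrable (fun y => max (-SN ν N y) 0) (iid ν) := hi.neg.pos_part
  simp only [h1]
  rw [integral_add hi (hmi.const_mul 2), h0, zero_add, integral_const_mul]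
  refine mul_le_mul_of_nonneg_left ?_ (by norm_num)
  have hnn : 0 ≤ᵐ[iid ν] fun y => max (-SN ν N y) 0 :=
    Eventually.of_forall fun y => le_max_right _ _
  rw [integral_eq_lintegral_of_nonneg_ae hnn hmi.aestronglyMeasurable]
  refine ENNReal.toReal_mono hK ?_
  refine le_trans (le_of_eq ?_) (hKN N)
  refine lintegral_congr fun y => ?_
  rcases le_total (-SN ν N y) 0 with h2 | h2
  · rw [max_eq_right h2, ENNReal.ofReal_zero, ENNReal.ofReal_of_nonpos h2]
  · rw [max_eq_left h2]

/-- the characteristic function of the centred information -/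
def cf (θ : ℝ) : ℂ := ∫ t, Complex.exp (((θ * cX ν t : ℝ) : ℂ) * Complex.I) ∂ν

theorem cf_pow {C : Set T} (hC : C.Countable) (hC0 : ν Cᶜ = 0)
    (h : shannon ν = ENNReal.ofReal (Real.log lam)) (θ : ℝ) (N : ℕ) :
    cf ν θ ^ N = ∫ y, Complex.exp (((θ * SN ν N y : ℝ) : ℂ) * Complex.I) ∂(iid ν) := by
  obtain ⟨hm, -, -⟩ := cX_int ν hC hC0 h
  have hfm : Measurable fun t => Complex.exp (((θ * cX ν t : ℝ) : ℂ) * Complex.I) :=
    Complex.measurable_exp.comp ((Complex.measurable_ofReal.comp (hm.const_mul θ)).mul_const _)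
  have h1 := Pool.Agent.V11331.ST.int_prodC (fun _ : ℤ => ν)
    ((Finset.range N).map Nat.castEmbedding)
    (fun _ t => Complex.exp (((θ * cX ν t : ℝ) : ℂ) * Complex.I)) fun _ => hfm
  rw [Finset.prod_const, Finset.card_map, Finset.card_range] at h1
  unfold cf iid
  rw [← h1]
  refine integral_congr_ae (Eventually.of_forall fun y => ?_)
  simp only
  rw [Finset.prod_map, ← Complex.exp_sum]
  congr 1
  unfold SN
  rw [← Finset.sum_mul]
  congr 1
  push_cast
  rw [Finset.mul_sum]
  rfl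

theorem cf_norm {K : ℝ} (hKN : ∀ N, ∫ y, |SN ν N y| ∂(iid ν) ≤ K)
    {C : Set T} (hC : C.Countable) (hC0 : ν Cᶜ = 0)
    (h : shannon ν = ENNReal.ofReal (Real.log lam)) {θ : ℝ} (hθ : 0 ≤ θ) (hθK : θ * K ≤ 1 / 2) :
    1 ≤ ‖cf ν θ‖ := by
  have h1 : ∀ N, 1 / 2 ≤ ‖cf ν θ‖ ^ N := by
    intro N
    obtain ⟨hm, hi, -⟩ := SN_int ν hC hC0 h N
    rw [← norm_pow, cf_pow ν hC hC0 h]
    set J := ∫ y, Complex.exp (((θ * SN ν N y : ℝ) : ℂ) * Complex.I) ∂(iid ν) with hJ
    have hfm : Measurable fun y => Complex.exp (((θ * SN ν N y : ℝ) : ℂ) * Complex.I) :=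
      Complex.measurable_exp.comp ((Complex.measurable_ofReal.comp (hm.const_mul θ)).mul_const _)
    have hfi : Integrable (fun y => Complex.exp (((θ * SN ν N y : ℝ) : ℂ) * Complex.I)) (iid ν) :=
      Integrable.of_bound hfm.aestronglyMeasurable 1 (Eventually.of_forall fun y => by
        rw [Complex.norm_exp_ofReal_mul_I])
    have h2 : ‖J - 1‖ ≤ θ * K := by
      have e1 : J - 1 = ∫ y, (Complex.exp (((θ * SN ν N y : ℝ) : ℂ) * Complex.I) - 1) ∂(iid ν) := by
        rw [integral_sub hfi (integrable_const _), ← hJ]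
        simp
      rw [e1]
      refine (norm_integral_le_integral_norm _).trans ?_
      have e2 : ∫ y, ‖Complex.exp (((θ * SN ν N y : ℝ) : ℂ) * Complex.I) - 1‖ ∂(iid ν) ≤
          ∫ y, θ * |SN ν N y| ∂(iid ν) := by
        refine integral_mono (hfi.sub (integrable_const _)).norm (hi.abs.const_mul θ) fun y => ?_
        have h3 := Real.norm_exp_I_mul_ofReal_sub_one_le (x := θ * SN ν N y)
        rw [mul_comm Complex.I] at h3
        refine h3.trans ?_
        rw [Real.norm_eq_abs, abs_mul, abs_of_nonneg hθ]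
      refine e2.trans ?_
      rw [integral_const_mul]
      exact mul_le_mul_of_nonneg_left (hKN N) hθ
    have h3 : ‖(1 : ℂ)‖ ≤ ‖J‖ + ‖J - 1‖ := by
      have : (1 : ℂ) = J - (J - 1) := by ring
      calc ‖(1 : ℂ)‖ = ‖J - (J - 1)‖ := by rw [← this]
        _ ≤ _ := norm_sub_le _ _
    rw [norm_one] at h3
    linarith
  by_contra h2
  have h3 := tendsto_pow_atTop_nhds_zero_of_lt_one (norm_nonneg (cf ν θ)) (not_le.1 h2)
  have h4 := ge_of_tendsto' h3 h1
  norm_num at h4

theorem atoms_eq {K : ℝ} (hK : 0 ≤ K) (hKN : ∀ N, ∫ y, |SN ν N y| ∂(iid ν) ≤ K)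
    {C : Set T} (hC : C.Countable) (hC0 : ν Cᶜ = 0)
    (h : shannon ν = ENNReal.ofReal (Real.log lam)) {s t : T} (hs : 0 < ν.real {s})
    (ht : 0 < ν.real {t}) : cX ν s = cX ν t := by
  by_contra hne
  set d := |cX ν s - cX ν t| with hd
  have hd0 : 0 < d := abs_pos.2 (sub_ne_zero.2 hne)
  set θ : ℝ := min (1 / (2 * (K + 1))) (1 / d) with hθ
  have hθ0 : 0 < θ := lt_min (by positivity) (by positivity)
  have hθK : θ * K ≤ 1 / 2 := by
    have h1 : θ * K ≤ 1 / (2 * (K + 1)) * K := mul_le_mul_of_nonneg_right (min_le_left _ _) hK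
    refine h1.trans ?_
    rw [div_mul_eq_mul_div, one_mul, div_le_div_iff₀ (by positivity) (by norm_num)]
    linarith
  have h1 := cf_norm ν hKN hC hC0 h hθ0.le hθK
  have h2 := ae_eq_const_or_norm_integral_lt_of_norm_le_const (μ := ν) (C := 1)
    (f := fun t => Complex.exp (((θ * cX ν t : ℝ) : ℂ) * Complex.I))
    (Eventually.of_forall fun t => by rw [Complex.norm_exp_ofReal_mul_I])
  rcases h2 with h2 | h2
  · have h3 : ∀ x : T, 0 < ν.real {x} → Complex.exp (((θ * cX ν x : ℝ) : ℂ) * Complex.I) =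
        ⨍ x, Complex.exp (((θ * cX ν x : ℝ) : ℂ) * Complex.I) ∂ν := by
      intro x hx
      by_contra h4
      have h5 : ν {x} = 0 := by
        refine measure_mono_null ?_ (ae_iff.1 h2)
        intro z hz
        rw [mem_singleton_iff] at hz
        rw [hz]
        exact h4
      rw [measureReal_def, h5] at hx
      simp at hx
    have h4 := (h3 s hs).trans (h3 t ht).symm
    have h5 : Complex.exp (((θ * (cX ν s - cX ν t) : ℝ) : ℂ) * Complex.I) = 1 := by
      have e : (((θ * (cX ν s - cX ν t) : ℝ) : ℂ) * Complex.I) =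
          (((θ * cX ν s : ℝ) : ℂ) * Complex.I) - (((θ * cX ν t : ℝ) : ℂ) * Complex.I) := by
        push_cast
        ring
      rw [e, Complex.exp_sub, h4, div_self (Complex.exp_ne_zero _)]
    have h6 : Real.cos (θ * (cX ν s - cX ν t)) = 1 := by
      have := congrArg Complex.re h5
      rw [Complex.exp_ofReal_mul_I_re, Complex.one_re] at this
      exact this
    have h7 : Real.cos (θ * d) = 1 := by
      rw [hd, ← abs_of_pos hθ0, ← abs_mul, Real.cos_abs]
      exact h6
    have h8 : 0 < θ * d := by positivity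
    have h9 : θ * d ≤ 1 := by
      have : θ * d ≤ 1 / d * d := mul_le_mul_of_nonneg_right (min_le_right _ _) hd0.le
      refine this.trans (le_of_eq ?_)
      field_simp
    have h10 : Real.cos (θ * d) < Real.cos 0 :=
      Real.cos_lt_cos_of_nonneg_of_le_pi le_rfl (by linarith [Real.pi_gt_three]) h8
    rw [h7, Real.cos_zero] at h10
    exact lt_irrefl _ h10
  · have h3 : ‖cf ν θ‖ < 1 := by
      unfold cf
      refine lt_of_lt_of_eq h2 ?_
      simp
    linarith

theorem main (h : shannon ν = ENNReal.ofReal (Real.log lam)) :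
    ¬ ∃ Φ : (ℤ → T) → (ℤ → Bool), IsFactorOnto ν Φ gold ∧ ExpWindow ν Φ := by
  rintro ⟨Φ, hΦ, hw⟩
  obtain ⟨K, hK, hKN⟩ := abs_bd ν hΦ hw h
  obtain ⟨C, hC, hC0⟩ := exists_carrier ν h
  obtain ⟨hm, hi, h0⟩ := cX_int ν hC hC0 h
  have hpos := p_pos_ae ν hC hC0
  obtain ⟨s, hs⟩ := hpos.exists
  have h1 : ∀ᵐ t ∂ν, cX ν t = cX ν s := by
    filter_upwards [hpos] with t ht
    exact atoms_eq ν hK hKN hC hC0 h ht hs
  have h2 : cX ν s = 0 := by
    have h3 := integral_congr_ae (μ := ν) h1
    rw [h0] at h3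
    simpa using h3.symm
  have h3 : ∀ t, 0 < ν.real {t} → ν.real {t} = 1 / lam := by
    intro t ht
    have h4 : cX ν t = 0 := by rw [atoms_eq ν hK hKN hC hC0 h ht hs, h2]
    unfold cX inf at h4
    have h5 : Real.log (ν.real {t}) = Real.log (1 / lam) := by
      rw [one_div, Real.log_inv]
      linarith
    exact Real.log_injOn_pos ht (by have := lam_pos; exact Set.mem_Ioi.2 (by positivity)) h5
  set A : Set T := {t | 0 < ν.real {t}} with hA
  have hAc : A.Countable := by
    refine hC.mono fun t ht => ?_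
    by_contra h4
    have h5 : 0 < ν.real {t} := ht
    rw [p_zero ν hC0 h4] at h5
    exact lt_irrefl _ h5
  have hA1 : ν A = 1 := (prob_compl_eq_zero_iff hAc.measurableSet).1 hpos
  have hsum : ν A = ∑' _t : A, ENNReal.ofReal (1 / lam) := by
    have h4 := lintegral_countable (μ := ν) (fun _ => 1) hAc
    rw [setLIntegral_one] at h4
    rw [h4]
    refine tsum_congr fun t => ?_
    rw [one_mul, ← h3 t.1 t.2, measureReal_def, ENNReal.ofReal_toReal (measure_ne_top _ _)]
  have hl := lam_pos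
  have hfin : Finite A := by
    by_contra hinf
    rw [not_finite_iff_infinite] at hinf
    rw [ENNReal.tsum_const_eq_top_of_ne_zero (by
      rw [Ne, ENNReal.ofReal_eq_zero, not_le]
      positivity), hA1] at hsum
    exact ENNReal.one_ne_top hsum
  have : Fintype A := Fintype.ofFinite A
  rw [tsum_fintype, Finset.sum_const, Finset.card_univ, nsmul_eq_mul, hA1] at hsum
  have h4 := congrArg ENNReal.toReal hsum
  rw [ENNReal.toReal_one, ENNReal.toReal_mul, ENNReal.toReal_natCast,
    ENNReal.toReal_ofReal (by positivity)] at h4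
  have h5 : lam = (Fintype.card A : ℝ) := by
    field_simp at h4
    exact h4
  exact Real.goldenRatio_irrational.ne_nat (Fintype.card A) h5

end Pool.Agent.V11331.MC

end
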