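import Pool.Agent.V11331.MC.Defs

/-!
# The golden mean chain of maximal entropy
-/

set_option autoImplicit false

open MeasureTheory ProbabilityTheory Filter Topology
open scoped ENNReal

noncomputable section

namespace Pool.Agent.V11331.MC

/-- the golden ratio -/
def lam : ℝ := Real.goldenRatio

theorem lam_sq : lam ^ 2 = lam + 1 := Real.goldenRatio_sq

theorem lam_gt : 1 < lam := Real.one_lt_goldenRatio

theorem lam_pos : 0 < lam := Real.goldenRatio_pos

theorem lam_lt : lam < 2 := Real.goldenRatio_lt_two

/-- the transition matrix -/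
def gQ : Bool → Bool → ℝ
  | false, false => 1 / lam
  | false, true => 1 / lam ^ 2
  | true, false => 1
  | true, true => 0

/-- the stationary distribution -/
def gπ : Bool → ℝ
  | false => lam ^ 2 / (1 + lam ^ 2)
  | true => 1 / (1 + lam ^ 2)

theorem Q_row : 1 / lam + 1 / lam ^ 2 = 1 := by
  have h := lam_sq
  have h0 := lam_pos
  field_simp
  linarith

/-- the golden mean chain -/
def gold : Chain Bool where
  Q := gQ
  π := gπ
  Q_nonneg := by
    have h0 := lam_pos
    intro i j
    cases i <;> cases j <;> simp only [gQ] <;> positivity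
  Q_sum := by
    intro i
    have h := hasSum_fintype (gQ i)
    rw [Fintype.sum_bool] at h
    have h2 : gQ i true + gQ i false = 1 := by
      cases i
      · simp only [gQ]
        linarith [Q_row]
      · simp only [gQ]
        norm_num
    rwa [h2] at h
  π_nonneg := by
    intro i
    cases i <;> simp only [gπ] <;> positivity
  π_sum := by
    have h := hasSum_fintype gπ
    rw [Fintype.sum_bool] at h
    have h2 : gπ true + gπ false = 1 := by
      simp only [gπ]
      field_simp
    rwa [h2] at h
  stationary := by
    intro j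
    have h0 := lam_pos
    have hs := lam_sq
    have h := hasSum_fintype fun i => gπ i * gQ i j
    rw [Fintype.sum_bool] at h
    have h2 : gπ true * gQ true j + gπ false * gQ false j = gπ j := by
      cases j
      · simp only [gπ, gQ]
        field_simp
        linarith
      · simp only [gπ, gQ]
        field_simp
        ring
    rwa [h2] at h

theorem step_one (i j : Bool) : gold.step 1 i j = gQ i j := by
  simp only [Chain.step]
  rw [tsum_fintype, Fintype.sum_bool]
  cases j <;> simp [gold]

theorem step_two (i j : Bool) : gold.step 2 i j = gQ i true * gQ true j + gQ i false * gQ false j := by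
  have h : gold.step 2 i j = ∑' k, gold.Q i k * gold.step 1 k j := rfl
  rw [h, tsum_fintype, Fintype.sum_bool, step_one, step_one]
  rfl

theorem step_three (i j : Bool) :
    gold.step 3 i j = gQ i true * gold.step 2 true j + gQ i false * gold.step 2 false j := by
  have h : gold.step 3 i j = ∑' k, gold.Q i k * gold.step 2 k j := rfl
  rw [h, tsum_fintype, Fintype.sum_bool]
  rfl

theorem gold_irreducible : gold.Irreducible := by
  intro i j
  have h0 := lam_pos
  refine ⟨2, ?_⟩
  rw [step_two]
  cases i <;> cases j <;> simp only [gQ] <;> positivity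

theorem gold_aperiodic : gold.Aperiodic := by
  intro i d hd
  have h0 := lam_pos
  have h2 : d ∣ 2 := hd 2 (by norm_num) (by
    rw [step_two]
    cases i <;> simp only [gQ] <;> positivity)
  have h3 : d ∣ 3 := hd 3 (by norm_num) (by
    rw [step_three, step_two, step_two]
    cases i <;> simp only [gQ] <;> positivity)
  have h1 : d ∣ 1 := (Nat.dvd_sub h3 h2)
  exact Nat.dvd_one.1 h1

theorem gold_expReturn : gold.ExpReturn := by
  have h0 := lam_pos
  have hs : ∀ n : ℕ, gold.surv false (n + 1) true = 0 := by
    intro n
    simp only [Chain.surv]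
    rw [tsum_fintype, Fintype.sum_bool]
    simp [gold, gQ]
  have hs2 : ∀ n : ℕ, gold.surv false (n + 2) false = 0 := by
    intro n
    have h : gold.surv false (n + 2) false = ∑' j, if j = false then 0 else
      gold.Q false j * gold.surv false (n + 1) j := by
      rw [Chain.surv]
      refine tsum_congr fun j => ?_
      congr
    rw [h, tsum_fintype, Fintype.sum_bool, hs n]
    simp
  have hs1 : gold.surv false 1 false ≤ 1 := by
    simp only [Chain.surv]
    rw [tsum_fintype, Fintype.sum_bool]
    simp only [gold, gQ]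
    have : 1 / lam ^ 2 ≤ 1 := by
      rw [div_le_one (by positivity)]
      exact one_le_pow₀ lam_gt.le
    simpa using this
  refine ⟨false, Real.exp 1, 1, one_pos, fun n => ?_⟩
  match n with
  | 0 =>
    simp only [Chain.surv]
    simp
  | 1 =>
    refine hs1.trans ?_
    rw [← Real.exp_add]
    simp
  | n + 2 =>
    rw [hs2]
    positivity

/-- the right eigenvector -/
def gr : Bool → ℝ
  | false => lam
  | true => 1

theorem gr_pos (i : Bool) : 0 < gr i := by
  cases i
  · exact lam_pos
  · exact one_pos

theorem gr_ge (i : Bool) : 1 ≤ gr i := by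
  cases i
  · exact lam_gt.le
  · exact le_rfl

theorem gr_le (i : Bool) : gr i ≤ lam := by
  cases i
  · exact le_rfl
  · exact lam_gt.le

theorem Q_eq (i j : Bool) : gQ i j = 0 ∨ gQ i j = gr j / (lam * gr i) := by
  have h0 := lam_pos
  cases i <;> cases j <;> simp only [gQ, gr]
  · right
    field_simp
  · right
    rw [sq]
  · right
    field_simp
  · left
    trivial

theorem prod_eq (n : ℕ) (w : Fin (n + 1) → Bool) :
    ∏ i : Fin n, gQ (w i.castSucc) (w i.succ) = 0 ∨
      ∏ i : Fin n, gQ (w i.castSucc) (w i.succ) = gr (w (Fin.last n)) / (lam ^ n * gr (w 0)) := by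
  have h0 := lam_pos
  induction n with
  | zero =>
    right
    have : gr (w 0) ≠ 0 := (gr_pos _).ne'
    have e : Fin.last 0 = (0 : Fin 1) := rfl
    rw [e]
    simp [this]
  | succ n ih =>
    rw [Fin.prod_univ_castSucc]
    have h1 := ih fun i => w i.castSucc
    have e1 : ∏ i : Fin n, gQ (w i.castSucc.castSucc) (w i.castSucc.succ) =
        ∏ i : Fin n, gQ ((fun i => w i.castSucc) i.castSucc) ((fun i => w i.castSucc) i.succ) :=
      rfl
    rw [e1]
    rcases h1 with h1 | h1
    · left
      rw [h1, zero_mul]
    · rw [h1]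
      rcases Q_eq (w (Fin.last n).castSucc) (w (Fin.last n).succ) with h2 | h2
      · left
        rw [h2, mul_zero]
      · right
        rw [h2, Fin.succ_last]
        have a1 : gr (w (Fin.last n).castSucc) ≠ 0 := (gr_pos _).ne'
        have a2 : gr (w (Fin.castSucc (0 : Fin (n + 1)))) ≠ 0 := (gr_pos _).ne'
        have a3 : w (Fin.castSucc (0 : Fin (n + 1))) = w 0 := rfl
        rw [a3] at a2 ⊢
        rw [pow_succ]
        field_simp

theorem wordProb_nonneg (n : ℕ) (w : Fin (n + 1) → Bool) : 0 ≤ gold.wordProb n w :=
  mul_nonneg (gold.π_nonneg _) (Finset.prod_nonneg fun _ _ => gold.Q_nonneg _ _)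

theorem gπ_le (i : Bool) : gπ i ≤ 1 := by
  cases i <;> simp only [gπ]
  · rw [div_le_one (by positivity)]
    linarith
  · rw [div_le_one (by positivity)]
    have : 0 ≤ lam ^ 2 := by positivity
    linarith

theorem gπ_ge (i : Bool) : 1 / 4 ≤ gπ i := by
  have h1 := lam_sq
  have h2 := lam_lt
  have h3 := lam_gt
  cases i <;> simp only [gπ]
  · rw [div_le_div_iff₀ (by norm_num) (by positivity)]
    nlinarith
  · rw [div_le_div_iff₀ (by norm_num) (by positivity)]
    nlinarith

theorem wordProb_le (n : ℕ) (w : Fin (n + 1) → Bool) : gold.wordProb n w ≤ lam / lam ^ n := by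
  have h0 := lam_pos
  unfold Chain.wordProb
  show gπ (w 0) * ∏ i : Fin n, gQ (w i.castSucc) (w i.succ) ≤ _
  rcases prod_eq n w with h | h
  · rw [h, mul_zero]
    positivity
  · rw [h]
    have h1 : gr (w (Fin.last n)) / (lam ^ n * gr (w 0)) ≤ lam / lam ^ n := by
      refine div_le_div₀ h0.le (gr_le _) (by positivity) ?_
      exact le_mul_of_one_le_right (by positivity) (gr_ge _)
    have h2 : 0 ≤ gr (w (Fin.last n)) / (lam ^ n * gr (w 0)) :=
      div_nonneg (gr_pos _).le (mul_pos (by positivity) (gr_pos _)).le
    calc gπ (w 0) * (gr (w (Fin.last n)) / (lam ^ n * gr (w 0))) ≤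
        1 * (gr (w (Fin.last n)) / (lam ^ n * gr (w 0))) := mul_le_mul_of_nonneg_right (gπ_le _) h2
      _ ≤ _ := by rw [one_mul]; exact h1

theorem wordProb_ge (n : ℕ) (w : Fin (n + 1) → Bool) (hw : gold.wordProb n w ≠ 0) :
    1 / (4 * lam) / lam ^ n ≤ gold.wordProb n w := by
  have h0 := lam_pos
  unfold Chain.wordProb at hw ⊢
  change gπ (w 0) * ∏ i : Fin n, gQ (w i.castSucc) (w i.succ) ≠ 0 at hw
  show _ ≤ gπ (w 0) * ∏ i : Fin n, gQ (w i.castSucc) (w i.succ)
  rcases prod_eq n w with h | h
  · rw [h, mul_zero] at hw
    exact absurd rfl hw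
  · rw [h]
    have h1 : 1 / (lam ^ n * lam) ≤ gr (w (Fin.last n)) / (lam ^ n * gr (w 0)) := by
      refine div_le_div₀ (gr_pos _).le (gr_ge _) (mul_pos (by positivity) (gr_pos _)) ?_
      exact mul_le_mul_of_nonneg_left (gr_le _) (by positivity)
    calc 1 / (4 * lam) / lam ^ n = 1 / 4 * (1 / (lam ^ n * lam)) := by
          field_simp
      _ ≤ _ := mul_le_mul (gπ_ge _) h1 (by positivity) (gold.π_nonneg _)

theorem sum_wordProb (n : ℕ) : ∑ w : Fin (n + 1) → Bool, gold.wordProb n w = 1 := by
  induction n with
  | zero =>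
    have h : ∀ w : Fin 1 → Bool, gold.wordProb 0 w = gπ (w 0) := by
      intro w
      unfold Chain.wordProb
      simp [gold]
    simp only [h]
    rw [Fintype.sum_equiv (Equiv.funUnique (Fin 1) Bool) (fun w : Fin 1 → Bool => gπ (w 0)) gπ
      fun w => rfl, Fintype.sum_bool]
    simp only [gπ]
    field_simp
  | succ n ih =>
    rw [← ih, ← (Fin.snocEquiv fun _ : Fin (n + 2) => Bool).sum_comp]
    rw [Fintype.sum_prod_type, Finset.sum_comm]
    refine Finset.sum_congr rfl fun w _ => ?_
    have h : ∀ b : Bool, gold.wordProb (n + 1) ((Fin.snocEquiv fun _ : Fin (n + 2) => Bool) (b, w)) =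
        gold.wordProb n w * gQ (w (Fin.last n)) b := by
      intro b
      unfold Chain.wordProb
      rw [Fin.prod_univ_castSucc]
      simp only [Fin.snocEquiv_apply, Fin.snoc_castSucc, Fin.succ_last, Fin.snoc_last,
        ← Fin.castSucc_zero, Fin.succ_castSucc]
      rw [mul_assoc]
      rfl
    simp only [h]
    rw [← Finset.mul_sum, Fintype.sum_bool]
    have h2 : gQ (w (Fin.last n)) true + gQ (w (Fin.last n)) false = 1 := by
      cases w (Fin.last n)
      · simp only [gQ]
        linarith [Q_row]
      · simp only [gQ]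
        norm_num
    rw [h2, mul_one]

theorem negMulLog_bd (n : ℕ) (w : Fin (n + 1) → Bool) :
    gold.wordProb n w * (n * Real.log lam - Real.log lam) ≤ Real.negMulLog (gold.wordProb n w) ∧
    Real.negMulLog (gold.wordProb n w) ≤
      gold.wordProb n w * (n * Real.log lam + Real.log (4 * lam)) := by
  have h0 := lam_pos
  by_cases hw : gold.wordProb n w = 0
  · rw [hw]
    simp
  · have hp : 0 < gold.wordProb n w := lt_of_le_of_ne (wordProb_nonneg n w) (Ne.symm hw)
    have h1 := Real.log_le_log hp (wordProb_le n w)
    have h2 := Real.log_le_log (by positivity) (wordProb_ge n w hw)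
    rw [Real.log_div h0.ne' (by positivity), Real.log_pow] at h1
    rw [Real.log_div (by positivity) (by positivity), Real.log_pow, one_div, Real.log_inv] at h2
    unfold Real.negMulLog
    constructor
    · nlinarith
    · nlinarith

theorem gold_entropy : gold.HasEntropy (Real.log lam) := by
  have h0 := lam_pos
  have hl : 0 < Real.log lam := Real.log_pos lam_gt
  unfold Chain.HasEntropy
  have t1 : Tendsto (fun n : ℕ => (n * Real.log lam - Real.log lam) / (n + 1 : ℝ)) atTop
      (𝓝 (Real.log lam)) := by
    have h : ∀ n : ℕ, (n * Real.log lam - Real.log lam) / (n + 1 : ℝ) =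
        Real.log lam + (-2 * Real.log lam) * (1 / ((n : ℝ) + 1)) := by
      intro n
      have : (n : ℝ) + 1 ≠ 0 := by positivity
      field_simp
      ring
    simp only [h]
    have h2 := (tendsto_one_div_add_atTop_nhds_zero_nat (𝕜 := ℝ)).const_mul (-2 * Real.log lam)
    have h3 := h2.const_add (Real.log lam)
    rw [mul_zero, add_zero] at h3
    exact h3
  have t2 : Tendsto (fun n : ℕ => (n * Real.log lam + Real.log (4 * lam)) / (n + 1 : ℝ)) atTop
      (𝓝 (Real.log lam)) := by
    have h : ∀ n : ℕ, (n * Real.log lam + Real.log (4 * lam)) / (n + 1 : ℝ) =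
        Real.log lam + (Real.log (4 * lam) - Real.log lam) * (1 / ((n : ℝ) + 1)) := by
      intro n
      have : (n : ℝ) + 1 ≠ 0 := by positivity
      field_simp
      ring
    simp only [h]
    have h2 := (tendsto_one_div_add_atTop_nhds_zero_nat (𝕜 := ℝ)).const_mul
      (Real.log (4 * lam) - Real.log lam)
    have h3 := h2.const_add (Real.log lam)
    rw [mul_zero, add_zero] at h3
    exact h3
  refine tendsto_of_tendsto_of_tendsto_of_le_of_le t1 t2 (fun n => ?_) (fun n => ?_)
  · simp only
    refine div_le_div_of_nonneg_right ?_ (by positivity)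
    calc n * Real.log lam - Real.log lam =
        (∑ w : Fin (n + 1) → Bool, gold.wordProb n w) * (n * Real.log lam - Real.log lam) := by
          rw [sum_wordProb, one_mul]
      _ ≤ _ := by
          rw [Finset.sum_mul]
          exact Finset.sum_le_sum fun w _ => (negMulLog_bd n w).1
  · simp only
    refine div_le_div_of_nonneg_right ?_ (by positivity)
    calc ∑ w : Fin (n + 1) → Bool, Real.negMulLog (gold.wordProb n w) ≤
        (∑ w : Fin (n + 1) → Bool, gold.wordProb n w) *
          (n * Real.log lam + Real.log (4 * lam)) := by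
          rw [Finset.sum_mul]
          exact Finset.sum_le_sum fun w _ => (negMulLog_bd n w).2
      _ = _ := by rw [sum_wordProb, one_mul]

end Pool.Agent.V11331.MC

end
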