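import Pool.Agent.V11331.MC.Golden
import Pool.Agent.V11331.ST.Pois

/-!
# No entropy-equal finitary coding of the golden mean chain with exponential window
-/

set_option autoImplicit false

open MeasureTheory ProbabilityTheory Filter Topology Set
open scoped ENNReal

noncomputable section

namespace Pool.Agent.V11331.MC

variable {T : Type} [MeasurableSpace T] [MeasurableSingletonClass T]

section Atoms

variable (ν : Measure T) [IsProbabilityMeasure ν]

omit [MeasurableSingletonClass T] in
theorem p_zero {C : Set T} (hC0 : ν Cᶜ = 0) {t : T} (ht : t ∉ C) : ν.real {t} = 0 := by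
  have h : ν {t} = 0 := measure_mono_null (by simpa using ht) hC0
  rw [measureReal_def, h, ENNReal.toReal_zero]

theorem p_meas {C : Set T} (hC : C.Countable) (hC0 : ν Cᶜ = 0) :
    Measurable fun t => ν.real {t} := by
  refine (measurable_const (a := (0 : ℝ))).measurable_of_countable_ne ?_
  refine hC.mono fun t ht => ?_
  by_contra h
  exact ht (p_zero ν hC0 h).symm

/-- information -/
def inf (t : T) : ℝ := -Real.log (ν.real {t})

omit [MeasurableSingletonClass T] in
theorem inf_nonneg (t : T) : 0 ≤ inf ν t := by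
  unfold inf
  have h : ν.real {t} ≤ 1 := measureReal_le_one
  have := Real.log_nonpos measureReal_nonneg h
  linarith

theorem lint_inf {C : Set T} (hC : C.Countable) (hC0 : ν Cᶜ = 0) :
    ∫⁻ t, ENNReal.ofReal (inf ν t) ∂ν = shannon ν := by
  have hr : ν.restrict C = ν := Measure.restrict_eq_self_of_ae_mem (by
    rw [ae_iff]
    exact hC0)
  have h1 : ∫⁻ t, ENNReal.ofReal (inf ν t) ∂ν = ∫⁻ t in C, ENNReal.ofReal (inf ν t) ∂ν := by
    rw [hr]
  rw [h1, lintegral_countable _ hC]
  unfold shannon
  rw [if_pos ⟨C, hC, hC0⟩]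
  have h2 : ∀ t : T, ENNReal.ofReal (inf ν t) * ν {t} =
      ENNReal.ofReal (Real.negMulLog (ν.real {t})) := by
    intro t
    have : ν {t} = ENNReal.ofReal (ν.real {t}) := by
      rw [measureReal_def, ENNReal.ofReal_toReal (measure_ne_top _ _)]
    rw [this, ← ENNReal.ofReal_mul (inf_nonneg ν t)]
    congr 1
    unfold inf Real.negMulLog
    ring
  simp only [h2]
  refine tsum_subtype_eq_of_support_subset
    (f := fun t => ENNReal.ofReal (Real.negMulLog (ν.real {t}))) (s := C) ?_
  intro t ht
  by_contra h
  apply ht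
  simp only
  rw [p_zero ν hC0 h]
  simp

theorem p_pos_ae {C : Set T} (hC : C.Countable) (hC0 : ν Cᶜ = 0) :
    ∀ᵐ t ∂ν, 0 < ν.real {t} := by
  have h1 : ν {t | ¬ 0 < ν.real {t}} = 0 := by
    have h2 : {t | ¬ 0 < ν.real {t}} ⊆ Cᶜ ∪ ⋃ t ∈ {t ∈ C | ν {t} = 0}, {t} := by
      intro t ht
      by_cases htC : t ∈ C
      · right
        simp only [mem_iUnion]
        refine ⟨t, ⟨htC, ?_⟩, rfl⟩
        have h3 : ν.real {t} = 0 := le_antisymm (not_lt.1 ht) measureReal_nonneg
        exact (measureReal_eq_zero_iff).1 h3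
      · left
        exact htC
    refine measure_mono_null h2 (measure_union_null hC0 ?_)
    have h4 : {t ∈ C | ν {t} = 0}.Countable := hC.mono fun t ht => ht.1
    rw [measure_biUnion_null_iff h4]
    exact fun t ht => ht.2
  exact h1

end Atoms

section Shift

variable (ν : Measure T) [IsProbabilityMeasure ν]

instance : IsProbabilityMeasure (iid ν) := by
  unfold iid
  infer_instance

omit [MeasurableSingletonClass T] in
theorem shift_meas (m : ℤ) : Measurable (shift (A := T) m) :=
  measurable_pi_lambda _ fun _ => measurable_pi_apply _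

/-- the shift as a measurable equivalence -/
def shE (m : ℤ) : (ℤ → T) ≃ᵐ (ℤ → T) where
  toFun := shift m
  invFun := shift (-m)
  left_inv y := by
    funext k
    simp [shift]
  right_inv y := by
    funext k
    simp [shift]
  measurable_toFun := shift_meas m
  measurable_invFun := shift_meas (-m)

omit [MeasurableSingletonClass T] in
theorem shE_mp (m : ℤ) : MeasurePreserving (shE (T := T) m) (iid ν) (iid ν) := by
  refine ⟨(shE m).measurable, ?_⟩
  conv_rhs => unfold iid
  refine Measure.eq_infinitePi _ fun s t ht => ?_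
  rw [Measure.map_apply (shE m).measurable (MeasurableSet.pi s.countable_toSet fun i _ => ht i)]
  have h1 : (shE (T := T) m) ⁻¹' (Set.pi s t) =
      Set.pi (s.map (Equiv.addRight m).toEmbedding) fun v => t (v - m) := by
    ext ω
    simp only [mem_preimage, Set.mem_pi, Finset.mem_coe, Finset.mem_map_equiv]
    constructor
    · intro h v hv
      have h3 := h _ hv
      simp only [Equiv.addRight_symm, Equiv.coe_addRight] at h3
      have h4 : shE (T := T) m ω (v + -m) = ω v := by
        show ω (v + -m + m) = ω v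
        congr 1
        ring
      rw [h4] at h3
      exact h3
    · intro h v hv
      have h3 := h (v + m) (by simpa using hv)
      have h4 : shE (T := T) m ω v = ω (v + m) := rfl
      rw [h4]
      simpa using h3
  rw [h1]
  unfold iid
  rw [Measure.infinitePi_pi _ fun i _ => ht _, Finset.prod_map]
  refine Finset.prod_congr rfl fun i _ => ?_
  simp

omit [MeasurableSingletonClass T] in
theorem shift_measure (m : ℤ) (s : Set (ℤ → T)) : iid ν (shift m ⁻¹' s) = iid ν s :=
  (shE_mp ν m).measure_preimage_equiv s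

theorem shift_add {A : Type} (m k : ℤ) (y : ℤ → A) : shift m (shift k y) = shift (m + k) y := by
  funext j
  simp [shift, add_assoc]

omit [MeasurableSingletonClass T] in
theorem equivar_all {Φ : (ℤ → T) → (ℤ → Bool)}
    (h : ∀ᵐ y ∂(iid ν), Φ (shift 1 y) = shift 1 (Φ y)) :
    ∀ᵐ y ∂(iid ν), ∀ m : ℤ, Φ (shift m y) = shift m (Φ y) := by
  have h1 : ∀ᵐ y ∂(iid ν), ∀ m : ℤ, Φ (shift 1 (shift m y)) = shift 1 (Φ (shift m y)) := by
    rw [ae_all_iff]
    intro m
    rw [ae_iff] at h ⊢
    exact (shift_measure ν m _).trans h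
  filter_upwards [h1] with y hy
  intro m
  induction m using Int.induction_on with
  | zero =>
    have e : ∀ {A : Type} (z : ℤ → A), shift 0 z = z := by
      intro A z
      funext k
      simp [shift]
    rw [e, e]
  | succ i ih =>
    have h2 := hy i
    rw [shift_add, ih, shift_add] at h2
    rw [add_comm]
    exact h2
  | pred i ih =>
    have h2 := hy (-(i : ℤ) - 1)
    rw [shift_add] at h2
    have e : (1 : ℤ) + (-(i : ℤ) - 1) = -i := by ring
    rw [e, ih] at h2
    have h3 := congrArg (shift (-1)) h2
    rw [shift_add, shift_add] at h3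
    have e2 : (-1 : ℤ) + 1 = 0 := by ring
    rw [e2] at h3
    have e3 : shift 0 (Φ (shift (-(i : ℤ) - 1) y)) = Φ (shift (-(i : ℤ) - 1) y) := by
      funext k
      simp [shift]
    rw [e3] at h3
    rw [← h3]
    congr 1
    ring

end Shift

omit [MeasurableSpace T] [MeasurableSingletonClass T] in
theorem window_le {Φ : (ℤ → T) → (ℤ → Bool)} {D : Set (ℤ → T)} {z : ℤ → T} {r : ℕ}
    (h : window Φ D z ≤ r) {y' : ℤ → T} (hy' : y' ∈ D) (ha : ∀ k : ℤ, |k| ≤ r → y' k = z k) :
    Φ y' 0 = Φ z 0 := by
  by_contra hne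
  have h1 : ((r + 1 : ℕ) : ℕ∞) ≤ window Φ D z := by
    unfold window
    refine le_iInf₂ fun r' hr' => ?_
    by_contra h2
    have h3 : r' ≤ r := by
      have : (r' : ℕ∞) < ((r + 1 : ℕ) : ℕ∞) := not_le.1 h2
      have h4 : r' < r + 1 := by exact_mod_cast this
      omega
    apply hne
    refine hr' y' hy' fun k hk => ha k (hk.trans ?_)
    exact_mod_cast h3
  have h2 : ((r + 1 : ℕ) : ℕ∞) ≤ (r : ℕ∞) := h1.trans h
  have h3 : r + 1 ≤ r := by exact_mod_cast h2
  omega

/-- distance of the site `i` from the complement of `{0, …, N - 1}`, minus one -/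
def ed (N i : ℕ) : ℕ := min i (N - 1 - i)

variable (ν : Measure T) [IsProbabilityMeasure ν]

/-- the cylinder estimate -/
theorem cyl_est {Φ : (ℤ → T) → (ℤ → Bool)} (hΦ : IsFactorOnto ν Φ gold) {D : Set (ℤ → T)}
    (hD : iid ν Dᶜ = 0) {y : ℤ → T} (hyE : ∀ m : ℤ, Φ (shift m y) = shift m (Φ y))
    (N a : ℕ) (ha : 2 * a < N)
    (hw : ∀ i : ℕ, a ≤ i → i < N - a → window Φ D (shift i y) ≤ (ed N i : ℕ∞)) :
    ∏ k ∈ Finset.range N, ν.real {y k} ≤ lam / lam ^ (N - 2 * a - 1) := by
  set n : ℕ := N - 2 * a - 1 with hn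
  set E : Set (ℤ → T) := {z | ∀ m : ℤ, Φ (shift m z) = shift m (Φ z)} with hE
  set F : Set (ℤ → T) := {z | ∀ m : ℤ, shift m z ∈ D} with hF
  have hE0 : iid ν Eᶜ = 0 := equivar_all ν hΦ.equivar
  have hF0 : iid ν Fᶜ = 0 := by
    have : Fᶜ = ⋃ m : ℤ, shift m ⁻¹' Dᶜ := by
      ext z
      simp [hF]
    rw [this, measure_iUnion_null_iff]
    intro m
    rw [shift_measure, hD]
  set cyl : Set (ℤ → T) :=
    Set.pi ((Finset.range N).map Nat.castEmbedding : Finset ℤ) fun k => {y k} with hcyl
  have hP : iid ν cyl = ∏ k ∈ Finset.range N, ν {y k} := by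
    unfold iid
    rw [hcyl, Measure.infinitePi_pi _ fun i _ => measurableSet_singleton _, Finset.prod_map]
    rfl
  set w : Fin (n + 1) → Bool := fun i => Φ y (a + i) with hwd
  have hsub : cyl ⊆ {z | ∀ i : Fin (n + 1), Φ z ((a : ℤ) + i) = w i} ∪ (Eᶜ ∪ Fᶜ) := by
    intro z hz
    by_cases hzE : z ∈ E
    · by_cases hzF : z ∈ F
      · left
        intro i
        have hi := i.2
        set j : ℕ := a + i with hj
        have hj1 : a ≤ j := by omega
        have hj2 : j < N - a := by omega
        have h1 := hw j hj1 hj2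
        have h2 : Φ (shift j z) 0 = Φ (shift j y) 0 := by
          refine window_le h1 (hzF j) ?_
          intro k hk
          have h3 : (k + j : ℤ) = ((k + j).toNat : ℤ) ∧ (k + j).toNat < N := by
            have h4 := abs_le.1 hk
            unfold ed at h4
            constructor
            · rw [Int.toNat_of_nonneg]
              omega
            · omega
          show z (k + j) = y (k + j)
          have h5 : (k + j : ℤ) ∈ ((Finset.range N).map Nat.castEmbedding : Finset ℤ) := by
            rw [Finset.mem_map]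
            exact ⟨(k + j).toNat, Finset.mem_range.2 h3.2, h3.1.symm⟩
          exact hz _ h5
        rw [hzE j, hyE j] at h2
        have h3 : Φ z (0 + j) = Φ y (0 + j) := h2
        rw [zero_add] at h3
        have h4 : ((j : ℕ) : ℤ) = (a : ℤ) + (i : ℕ) := by
          rw [hj]
          push_cast
          ring
        rw [h4] at h3
        exact h3
      · right
        right
        exact hzF
    · right
      left
      exact hzE
  have h1 : iid ν cyl ≤ ENNReal.ofReal (gold.wordProb n w) := by
    refine (measure_mono hsub).trans ?_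
    refine (measure_union_le _ _).trans ?_
    rw [measure_union_null hE0 hF0, add_zero, hΦ.law a n w]
  have h2 : iid ν cyl ≤ ENNReal.ofReal (lam / lam ^ n) :=
    h1.trans (ENNReal.ofReal_le_ofReal (wordProb_le n w))
  rw [hP] at h2
  have h3 := ENNReal.toReal_le_of_le_ofReal (by have := lam_pos; positivity) h2
  rw [ENNReal.toReal_prod] at h3
  exact h3

end Pool.Agent.V11331.MC

end
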