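import Pool.Agent.V11331.MC.Main

/-!
# The information walk
-/

set_option autoImplicit false

open MeasureTheory ProbabilityTheory Filter Topology Set
open scoped ENNReal

noncomputable section

namespace Pool.Agent.V11331.MC

variable {T : Type} [MeasurableSpace T] [MeasurableSingletonClass T]
variable (ν : Measure T) [IsProbabilityMeasure ν]

/-- centred information -/
def cX (t : T) : ℝ := inf ν t - Real.log lam

/-- the information walk -/
def SN (N : ℕ) (y : ℤ → T) : ℝ := ∑ k ∈ Finset.range N, cX ν (y k)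

/-- the event that the coding window at the site `i` leaves `{0, …, N - 1}` -/
def bad (Φ : (ℤ → T) → (ℤ → Bool)) (D : Set (ℤ → T)) (N i : ℕ) : Set (ℤ → T) :=
  {y | (ed N i : ℕ∞) < window Φ D (shift i y)}

/-- the total overhang -/
def ov (Φ : (ℤ → T) → (ℤ → Bool)) (D : Set (ℤ → T)) (N : ℕ) (y : ℤ → T) : ℕ :=
  ∑ i ∈ Finset.range N, (bad Φ D N i).indicator (fun _ => ed N i + 1) y

omit [MeasurableSingletonClass T] in
theorem SN_ge (N : ℕ) (y : ℤ → T) : -(N * Real.log lam) ≤ SN ν N y := by
  unfold SN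
  have h : ∑ _k ∈ Finset.range N, (-Real.log lam) ≤ ∑ k ∈ Finset.range N, cX ν (y k) := by
    refine Finset.sum_le_sum fun k _ => ?_
    unfold cX
    have := inf_nonneg ν (y k)
    linarith
  rw [Finset.sum_const, Finset.card_range, nsmul_eq_mul] at h
  linarith

theorem SN_lower {Φ : (ℤ → T) → (ℤ → Bool)} (hΦ : IsFactorOnto ν Φ gold) {D : Set (ℤ → T)}
    (hD : iid ν Dᶜ = 0) {y : ℤ → T} (hyE : ∀ m : ℤ, Φ (shift m y) = shift m (Φ y))
    (hpos : ∀ k : ℤ, 0 < ν.real {y k}) (N : ℕ) :
    -((2 * ov Φ D N y + 2) * Real.log lam) ≤ SN ν N y := by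
  have hl : 0 < Real.log lam := Real.log_pos lam_gt
  have h0 := lam_pos
  set a := ov Φ D N y with ha
  by_cases h2a : 2 * a < N
  · have hw : ∀ i : ℕ, a ≤ i → i < N - a → window Φ D (shift i y) ≤ (ed N i : ℕ∞) := by
      intro i hi1 hi2
      by_contra hlt
      have hb : y ∈ bad Φ D N i := not_le.1 hlt
      have h1 : ed N i + 1 ≤ a := by
        have h3 := Finset.single_le_sum
          (f := fun i => (bad Φ D N i).indicator (fun _ => ed N i + 1) y)
          (fun _ _ => Nat.zero_le _) (Finset.mem_range.2 (show i < N by omega))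
        rw [indicator_of_mem hb] at h3
        exact h3
      unfold ed at h1
      omega
    have h1 := cyl_est ν hΦ hD hyE N a h2a hw
    have hprod : 0 < ∏ k ∈ Finset.range N, ν.real {y k} :=
      Finset.prod_pos fun k _ => hpos k
    have h2 := Real.log_le_log hprod h1
    have hlp : Real.log (∏ k ∈ Finset.range N, ν.real {y k}) =
        ∑ k ∈ Finset.range N, Real.log (ν.real {y k}) :=
      Real.log_prod (f := fun k : ℕ => ν.real {y k}) fun k _ => (hpos k).ne'
    rw [hlp, Real.log_div h0.ne' (by positivity), Real.log_pow] at h2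
    have h3 : SN ν N y = -∑ k ∈ Finset.range N, Real.log (ν.real {y k}) - N * Real.log lam := by
      unfold SN cX inf
      rw [Finset.sum_sub_distrib, Finset.sum_neg_distrib, Finset.sum_const, Finset.card_range,
        nsmul_eq_mul]
    have h4 : ((N - 2 * a - 1 : ℕ) : ℝ) = (N : ℝ) - 2 * a - 1 := by
      have : ((N - 2 * a - 1 : ℕ) : ℝ) + (2 * a + 1 : ℕ) = N := by
        exact_mod_cast (show N - 2 * a - 1 + (2 * a + 1) = N by omega)
      push_cast at this
      linarith
    rw [h4] at h2
    rw [h3]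
    nlinarith
  · have h1 := SN_ge ν N y
    have h2 : (N : ℝ) ≤ 2 * a := by exact_mod_cast (not_lt.1 h2a)
    nlinarith

omit [MeasurableSingletonClass T] in
theorem sum_ed (N : ℕ) (F : ℕ → ℝ≥0∞) :
    ∑ i ∈ Finset.range N, F (ed N i) ≤ 2 * ∑' r, F r := by
  have h1 : ∀ i ∈ Finset.range N, F (ed N i) ≤ F i + F (N - 1 - i) := by
    intro i _
    unfold ed
    rcases min_choice i (N - 1 - i) with h | h
    · rw [h]
      exact le_self_add
    · rw [h]
      exact le_add_self
  refine (Finset.sum_le_sum h1).trans ?_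
  rw [Finset.sum_add_distrib, Finset.sum_range_reflect, two_mul]
  exact add_le_add (ENNReal.sum_le_tsum _) (ENNReal.sum_le_tsum _)

/-- the bound for the negative part -/
theorem neg_part_bd {Φ : (ℤ → T) → (ℤ → Bool)} (hΦ : IsFactorOnto ν Φ gold)
    (hw : ExpWindow ν Φ) {C : Set T} (hC : C.Countable) (hC0 : ν Cᶜ = 0) :
    ∃ K : ℝ≥0∞, K ≠ ∞ ∧ ∀ N, ∫⁻ y, ENNReal.ofReal (-SN ν N y) ∂(iid ν) ≤ K := by
  obtain ⟨D, hD, B, c, hc, htail⟩ := hw
  have hl : 0 < Real.log lam := Real.log_pos lam_gt
  set F : ℕ → ℝ≥0∞ := fun r => ((r + 1 : ℕ) : ℝ≥0∞) * ENNReal.ofReal (B * Real.exp (-c * r))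
    with hF
  have hFsum : ∑' r, F r ≠ ∞ := by
    have h1 : ∀ r : ℕ, F r = ENNReal.ofReal (((r : ℝ) + 1) * Real.exp (-c * r) * B) := by
      intro r
      rw [hF]
      simp only
      rw [← ENNReal.ofReal_natCast, ← ENNReal.ofReal_mul (by positivity)]
      congr 1
      push_cast
      ring
    simp only [h1]
    have h2 : Summable fun r : ℕ => ((r : ℝ) + 1) * Real.exp (-c * r) * B := by
      refine Summable.mul_right B ?_
      have h3 : ∀ r : ℕ, Real.exp (-c * r) = Real.exp (-c) ^ r := by
        intro r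
        rw [← Real.exp_nat_mul]
        congr 1
        ring
      simp only [h3, add_mul, one_mul]
      have h4 : ‖Real.exp (-c)‖ < 1 := by
        rw [Real.norm_of_nonneg (Real.exp_pos _).le, Real.exp_lt_one_iff]
        linarith
      have h5 : Real.exp (-c) < 1 := by
        rw [Real.exp_lt_one_iff]
        linarith
      have h6 := summable_pow_mul_geometric_of_norm_lt_one 1 h4
      simp only [pow_one] at h6
      exact h6.add (summable_geometric_of_lt_one (Real.exp_pos _).le h5)
    exact h2.tsum_ofReal_ne_top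
  set c2 : ℝ≥0∞ := ENNReal.ofReal (2 * Real.log lam) with hc2
  refine ⟨c2 * (2 * ∑' r, F r + 1), ?_, fun N => ?_⟩
  · refine ENNReal.mul_ne_top ENNReal.ofReal_ne_top (ENNReal.add_ne_top.2 ⟨?_, ENNReal.one_ne_top⟩)
    exact ENNReal.mul_ne_top (by norm_num) hFsum
  · have hbad : ∀ i, iid ν (bad Φ D N i) ≤
        ENNReal.ofReal (B * Real.exp (-c * (ed N i : ℕ))) := by
      intro i
      have h1 : bad Φ D N i = shift (i : ℤ) ⁻¹' {z | (ed N i : ℕ∞) < window Φ D z} := rfl
      rw [h1, shift_measure]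
      exact htail _
    set Bm : ℕ → Set (ℤ → T) := fun i => toMeasurable (iid ν) (bad Φ D N i) with hBm
    have hpt : ∀ᵐ y ∂(iid ν), ENNReal.ofReal (-SN ν N y) ≤
        c2 * (∑ i ∈ Finset.range N, (Bm i).indicator (fun _ => ((ed N i + 1 : ℕ) : ℝ≥0∞)) y + 1) := by
      have hpos : ∀ᵐ y ∂(iid ν), ∀ k : ℤ, 0 < ν.real {y k} := by
        rw [ae_all_iff]
        intro k
        have h1 := (measurePreserving_eval_infinitePi (fun _ : ℤ => ν) k)
        exact h1.quasiMeasurePreserving.ae (p_pos_ae ν hC hC0)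
      filter_upwards [equivar_all ν hΦ.equivar, hpos] with y hy1 hy2
      have h1 := SN_lower ν hΦ hD hy1 hy2 N
      have h2 : ENNReal.ofReal (-SN ν N y) ≤ c2 * ((ov Φ D N y : ℝ≥0∞) + 1) := by
        have h3 : -SN ν N y ≤ 2 * Real.log lam * ((ov Φ D N y : ℝ) + 1) := by linarith
        refine (ENNReal.ofReal_le_ofReal h3).trans (le_of_eq ?_)
        rw [ENNReal.ofReal_mul (by positivity), ENNReal.ofReal_add (by positivity) zero_le_one,
          ENNReal.ofReal_natCast, ENNReal.ofReal_one]
      refine h2.trans (mul_le_mul_right (add_le_add_left ?_ 1) c2)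
      unfold ov
      rw [Nat.cast_sum]
      refine Finset.sum_le_sum fun i _ => ?_
      by_cases hb : y ∈ bad Φ D N i
      · rw [indicator_of_mem hb, indicator_of_mem (subset_toMeasurable _ _ hb)]
      · rw [indicator_of_notMem hb]
        simp
    refine (lintegral_mono_ae hpt).trans ?_
    rw [lintegral_const_mul' _ _ ENNReal.ofReal_ne_top]
    refine mul_le_mul_right ?_ c2
    have hmi : ∀ i ∈ Finset.range N, Measurable
        ((Bm i).indicator (fun _ : ℤ → T => ((ed N i + 1 : ℕ) : ℝ≥0∞))) := fun i _ =>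
      measurable_const.indicator (measurableSet_toMeasurable _ _)
    rw [lintegral_add_right _ measurable_const, lintegral_finsetSum _ hmi]
    simp only [lintegral_const, measure_univ, mul_one]
    refine add_le_add_left ?_ 1
    refine le_trans (Finset.sum_le_sum fun i _ => ?_) (sum_ed N F)
    rw [lintegral_indicator_const (measurableSet_toMeasurable _ _), measure_toMeasurable]
    exact mul_le_mul_right (hbad i) _

end Pool.Agent.V11331.MC

end
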